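import Pool.Agent.Q88.CritConst.Torus

/-!
# MP_80466e_an: a flat torus and a smooth function without constant critical function

The manifold is the flat torus `M = ℝ⁶ / ℤ⁶` of dimension `n = 6`, for which `2* = 3` and
`(n - 2) / n = 2 / 3`.  Functions on `M` are `ℤ⁶`-periodic functions on `ℝ⁶`, and integrals over
`M` are integrals over the unit cube `cell`.
-/

open MeasureTheory Set Filter Metric
open scoped ContDiff Topology ENNReal

namespace Pool.Agent.Results.MP_80466e_an.NoConstantCritical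

/-- Euclidean space of dimension six. -/
abbrev R6 := EuclideanSpace ℝ (Fin 6)

/-- The unit cube, a fundamental domain of the torus. -/
def cell : Set R6 := {x | ∀ i, x i ∈ Ico (-(1 / 2) : ℝ) (1 / 2)}

/-- `ℤ⁶`-periodic functions: functions on the torus. -/
def Periodic6 (u : R6 → ℝ) : Prop :=
  ∀ (m : Fin 6 → ℤ) (x : R6), u (x + WithLp.toLp 2 (fun i => (m i : ℝ))) = u x

/-- `w` belongs to the Sobolev space `H₁²` of the torus and has the gradient `G`: it is the limit
in `L²` of smooth functions on the torus whose gradients converge in `L²` to `G`. -/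
def IsSobolev (w : R6 → ℝ) (G : R6 → R6) : Prop :=
  MemLp w 2 (volume.restrict cell) ∧ MemLp G 2 (volume.restrict cell) ∧
  ∃ u : ℕ → R6 → ℝ, (∀ j, ContDiff ℝ ∞ (u j) ∧ Periodic6 (u j)) ∧
    Tendsto (fun j => eLpNorm (fun x => u j x - w x) 2 (volume.restrict cell)) atTop (𝓝 0) ∧
    Tendsto (fun j => eLpNorm (fun x => gradient (u j) x - G x) 2 (volume.restrict cell))
      atTop (𝓝 0)

/-- The functional `I_h`. -/
noncomputable def energy (h w : R6 → ℝ) (G : R6 → R6) : ℝ :=
  (∫ x in cell, ‖G x‖ ^ 2) + ∫ x in cell, h x * w x ^ 2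

/-- `λ_{h,f}`, the infimum of `I_h` over all `w` in `H₁²` with `∫ f |w|³ = 1`. -/
noncomputable def lam (h f : R6 → ℝ) : EReal :=
  ⨅ (w : R6 → ℝ) (G : R6 → R6) (_ : IsSobolev w G) (_ : ∫ x in cell, f x * |w x| ^ 3 = 1),
    ((energy h w G : ℝ) : EReal)

/-- The operator `Δ + h` is coercive. -/
def Coercive (h : R6 → ℝ) : Prop :=
  ∃ C > 0, ∀ (w : R6 → ℝ) (G : R6 → R6), IsSobolev w G →
    C * ((∫ x in cell, ‖G x‖ ^ 2) + ∫ x in cell, w x ^ 2) ≤ energy h w G

/-- `K₆⁻²`: the best constant of the Sobolev inequality of Euclidean space of dimension six, the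
infimum of `∫ |∇u|² / (∫ |u|³)^(2/3)`. -/
noncomputable def sobolevConst : ℝ :=
  sInf {s | ∃ u : R6 → ℝ, ContDiff ℝ ∞ u ∧ HasCompactSupport u ∧ u ≠ 0 ∧
    s = (∫ x, ‖gradient u x‖ ^ 2) / (∫ x, |u x| ^ 3) ^ (2 / 3 : ℝ)}

/-- `Λ_f = K₆⁻² (sup f)^(-2/3)`. -/
noncomputable def Lam (f : R6 → ℝ) : ℝ := sobolevConst * (sSup (range f)) ^ (-(2 / 3) : ℝ)

/-- The admitted functions `h`: all when `f` is positive, and otherwise those with `Δ + h`
coercive. -/
def Admitted (f h : R6 → ℝ) : Prop := (∀ x, 0 < f x) ∨ Coercive h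

/-- The continuous function `h` is critical for `f`: it is weakly critical and every continuous
`k ≤ h`, `k ≠ h`, with `Δ + k` coercive is subcritical. -/
def Critical (f h : R6 → ℝ) : Prop :=
  Admitted f h ∧ lam h f = (Lam f : EReal) ∧
  ∀ k : R6 → ℝ, Continuous k → Periodic6 k → (∀ x, k x ≤ h x) → k ≠ h → Coercive k →
    lam k f < (Lam f : EReal)

/-- The function `1 - M ∑ sin²(π xᵢ)`. -/
noncomputable def weight (M : ℝ) (x : R6) : ℝ := 1 - M * ∑ i, Real.sin (Real.pi * x i) ^ 2

open Pool.Agent.Q88.CritConst in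
lemma sobIneq : SobIneq sobolevConst := by
  intro u hu hs
  have hnn : ∀ v : R6 → ℝ, 0 ≤ (∫ x, ‖gradient v x‖ ^ 2) / (∫ x, |v x| ^ 3) ^ (2 / 3 : ℝ) := by
    intro v
    apply div_nonneg
    · exact integral_nonneg fun x => by positivity
    · exact Real.rpow_nonneg (integral_nonneg fun x => by positivity) _
  by_cases h0 : u = 0
  · rw [h0]
    simp only [Pi.zero_apply, abs_zero]
    rw [show ((0 : ℝ) ^ 3) = 0 by norm_num, integral_zero, Real.zero_rpow (by norm_num), mul_zero]
    exact integral_nonneg fun x => by positivity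
  · have hpos : 0 < ∫ x, |u x| ^ 3 := by
      have hcs : HasCompactSupport (fun x => |u x| ^ 3) :=
        hs.comp_left (g := fun t : ℝ => |t| ^ 3) (by simp)
      have hcont : Continuous (fun x => |u x| ^ 3) := hu.continuous.abs.pow 3
      have hint : Integrable (fun x => |u x| ^ 3) (volume : Measure R6) :=
        hcont.integrable_of_hasCompactSupport hcs
      rw [integral_pos_iff_support_of_nonneg (fun x => by positivity) hint]
      have hop : IsOpen (Function.support fun x => |u x| ^ 3) := hcont.isOpen_support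
      apply hop.measure_pos volume
      obtain ⟨x, hx⟩ := Function.ne_iff.mp h0
      refine ⟨x, ?_⟩
      rw [Function.mem_support]
      have : u x ≠ 0 := hx
      positivity
    have h1 : sobolevConst ≤ (∫ x, ‖gradient u x‖ ^ 2) / (∫ x, |u x| ^ 3) ^ (2 / 3 : ℝ) := by
      apply csInf_le
      · refine ⟨0, ?_⟩
        rintro s ⟨v, _, _, _, rfl⟩
        exact hnn v
      · exact ⟨u, hu, hs, h0, rfl⟩
    rw [le_div_iff₀ (Real.rpow_pos_of_pos hpos _)] at h1
    simp_rw [norm_gradient] at h1
    exact h1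

lemma sobolevConst_nonneg : 0 ≤ sobolevConst := by
  apply Real.sInf_nonneg
  rintro s ⟨v, _, _, _, rfl⟩
  apply div_nonneg
  · exact integral_nonneg fun x => by positivity
  · exact Real.rpow_nonneg (integral_nonneg fun x => by positivity) _

open Pool.Agent.Q88.CritConst in
lemma main_ineq : ∃ M₀ : ℝ, 1 ≤ M₀ ∧ ∀ M : ℝ, M₀ ≤ M → ∀ (w : R6 → ℝ) (G : R6 → R6),
    IsSobolev w G → (∫ x in cell, weight M x * |w x| ^ 3) = 1 →
    sobolevConst ≤ ∫ x in cell, ‖G x‖ ^ 2 := by
  rcases sobolevConst_nonneg.eq_or_lt with h | h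
  · refine ⟨1, le_rfl, ?_⟩
    intro M _ w G _ _
    rw [← h]
    exact integral_nonneg fun x => by positivity
  · obtain ⟨M₀, hM1, hM⟩ := sobolev_fM h sobIneq
    refine ⟨M₀, hM1, ?_⟩
    intro M hMM w G hw h1
    have h2 := hM M hMM w G hw (lt_of_lt_of_eq one_pos h1.symm)
    have h3 : (∫ x in cube, fM M x * |w x| ^ 3) = 1 := h1
    rw [h3, Real.one_rpow, mul_one] at h2
    exact h2

lemma weight_smooth (M : ℝ) : ContDiff ℝ ∞ (weight M) := by
  unfold weight
  apply contDiff_const.sub
  apply contDiff_const.mul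
  apply ContDiff.sum
  intro i _
  exact (Real.contDiff_sin.comp (contDiff_const.mul
    (EuclideanSpace.proj i : R6 →L[ℝ] ℝ).contDiff)).pow 2

lemma weight_periodic (M : ℝ) : Periodic6 (weight M) := by
  intro m x
  unfold weight
  congr 2
  apply Finset.sum_congr rfl
  intro i _
  have h1 : Real.pi * (x + WithLp.toLp 2 (fun i => (m i : ℝ))) i
      = Real.pi * x i + (m i : ℤ) * Real.pi := by
    simp
    ring
  rw [h1, Real.sin_add_int_mul_pi, mul_pow]
  have h2 : (((-1 : ℝ)) ^ (m i)) ^ 2 = 1 := by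
    rw [← zpow_natCast, ← zpow_mul, mul_comm, zpow_mul]
    simp
  rw [h2, one_mul]

lemma weight_sup {M : ℝ} (hM : 0 ≤ M) : sSup (range (weight M)) = 1 := by
  apply le_antisymm
  · apply csSup_le (range_nonempty _)
    rintro _ ⟨x, rfl⟩
    unfold weight
    have : 0 ≤ ∑ i, Real.sin (Real.pi * x i) ^ 2 := Finset.sum_nonneg fun i _ => by positivity
    nlinarith
  · apply le_csSup
    · refine ⟨1, ?_⟩
      rintro _ ⟨x, rfl⟩
      unfold weight
      have : 0 ≤ ∑ i, Real.sin (Real.pi * x i) ^ 2 := Finset.sum_nonneg fun i _ => by positivity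
      nlinarith
    · refine ⟨0, ?_⟩
      simp [weight]

lemma weight_not_pos {M : ℝ} (hM : 1 ≤ M) : ¬ ∀ x, 0 < weight M x := by
  intro h
  have h1 := h (WithLp.toLp 2 (fun _ => (1 / 2 : ℝ)))
  unfold weight at h1
  have h2 : ∀ i : Fin 6, Real.sin (Real.pi * (WithLp.toLp 2 (fun _ => (1 / 2 : ℝ)) : R6) i) ^ 2
      = 1 := by
    intro i
    have : Real.pi * (WithLp.toLp 2 (fun _ => (1 / 2 : ℝ)) : R6) i = Real.pi / 2 := by
      simp
      ring
    rw [this, Real.sin_pi_div_two, one_pow]
  rw [Finset.sum_congr rfl (fun i _ => h2 i)] at h1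
  simp only [Finset.sum_const, Finset.card_univ, Fintype.card_fin, nsmul_eq_mul] at h1
  norm_num at h1
  linarith

lemma isSobolev_one : IsSobolev (fun _ => 1) (fun _ => 0) := by
  have hfin : IsFiniteMeasure (volume.restrict cell) :=
    inferInstanceAs (IsFiniteMeasure Pool.Agent.Q88.CritConst.mc)
  refine ⟨memLp_const 1, memLp_const 0, fun _ _ => 1, ?_, ?_, ?_⟩
  · intro j
    exact ⟨contDiff_const, fun _ _ => rfl⟩
  · simp
  · have : (fun x : R6 => gradient (fun _ : R6 => (1 : ℝ)) x - 0) = fun _ => 0 := by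
      funext x
      simp [gradient]
    simp_rw [this]
    simp

lemma cell_vol_pos : 0 < volume.real cell := by
  rw [measureReal_def]
  apply ENNReal.toReal_pos
  · have h1 : ball (0 : R6) (1 / 2) ⊆ cell := fun x hx =>
      Pool.Agent.Q88.CritConst.mem_cube_of_norm (by simpa using hx)
    exact ((measure_ball_pos volume (0 : R6) (by norm_num)).trans_le (measure_mono h1)).ne'
  · exact Pool.Agent.Q88.CritConst.volume_cube_lt_top.ne

lemma coercive_const_iff (c : ℝ) : Coercive (fun _ => c) ↔ 0 < c := by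
  constructor
  · rintro ⟨C, hC, h⟩
    have h1 := h _ _ isSobolev_one
    unfold energy at h1
    simp only [norm_zero, one_pow, mul_one] at h1
    rw [setIntegral_const, setIntegral_const, setIntegral_const] at h1
    simp only [smul_eq_mul, mul_one] at h1
    have h2 := cell_vol_pos
    have h3 : C * volume.real cell ≤ c * volume.real cell := by
      have h4 : ((0 : ℝ) ^ 2) = 0 := by norm_num
      rw [h4] at h1
      linarith
    exact hC.trans_le (le_of_mul_le_mul_right h3 h2)
  · intro hc
    refine ⟨min 1 c, lt_min one_pos hc, ?_⟩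
    intro w G hw
    unfold energy
    rw [integral_const_mul, mul_add]
    have h1 : 0 ≤ ∫ x in cell, ‖G x‖ ^ 2 := integral_nonneg fun x => by positivity
    have h2 : 0 ≤ ∫ x in cell, w x ^ 2 := integral_nonneg fun x => by positivity
    apply add_le_add
    · calc min 1 c * ∫ x in cell, ‖G x‖ ^ 2 ≤ 1 * ∫ x in cell, ‖G x‖ ^ 2 :=
            mul_le_mul_of_nonneg_right (min_le_left _ _) h1
        _ = _ := one_mul _
    · exact mul_le_mul_of_nonneg_right (min_le_right _ _) h2

/-- For every large `M` the smooth function `weight M = 1 - M ∑ sin²(π xᵢ)` on the flat torus of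
dimension six has supremum `1`, and no constant function is critical for it. -/
theorem result : ∃ M₀ : ℝ, ∀ M : ℝ, M₀ ≤ M →
    ContDiff ℝ ∞ (weight M) ∧ Periodic6 (weight M) ∧ sSup (range (weight M)) = 1 ∧
    ∀ c : ℝ, ¬ Critical (weight M) (fun _ => c) := by
  obtain ⟨M₀, hM1, hM⟩ := main_ineq
  refine ⟨M₀, ?_⟩
  intro M hMM
  have hM0 : 1 ≤ M := hM1.trans hMM
  refine ⟨weight_smooth M, weight_periodic M, weight_sup (by linarith), ?_⟩
  rintro c ⟨hadm, -, hcrit⟩
  have hc : 0 < c := by
    rcases hadm with h | h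
    · exact absurd h (weight_not_pos hM0)
    · exact (coercive_const_iff c).mp h
  have h1 := hcrit (fun _ => c / 2) continuous_const (fun _ _ => rfl) (fun _ => by linarith)
    (by
      intro h
      have h5 : c / 2 = c := congrFun h 0
      linarith) ((coercive_const_iff (c / 2)).mpr (by linarith))
  apply absurd h1
  rw [not_lt]
  have hLam : Lam (weight M) = sobolevConst := by
    unfold Lam
    rw [weight_sup (by linarith), Real.one_rpow, mul_one]
  rw [hLam]
  unfold lam
  refine le_iInf fun w => le_iInf fun G => le_iInf fun hw => le_iInf fun hone => ?_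
  rw [EReal.coe_le_coe_iff]
  unfold energy
  have h2 := hM M hMM w G hw hone
  have h3 : 0 ≤ ∫ x in cell, c / 2 * w x ^ 2 := by
    apply integral_nonneg
    intro x
    positivity
  linarith

end Pool.Agent.Results.MP_80466e_an.NoConstantCritical
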